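import Mathlib

open Finset

namespace Pool.Agent.Helper591.DR

/-- the difference `|n - m|` -/
def dif (p : ℕ × ℕ) : ℕ := (p.1 - p.2) + (p.2 - p.1)

/-- the quantity `(r+1)(n-r+1)(m-r+1)` with `r = (n+m-k)/2`. -/
noncomputable def Q (p : ℕ × ℕ) (k : ℕ) : ℝ :=
  (((p.1:ℝ)+p.2-k)/2+1) * (((p.1:ℝ)-p.2+k)/2+1) * (((p.2:ℝ)-p.1+k)/2+1)

lemma sum_inv_sqrt (J : ℕ) : ∑ j ∈ Finset.range J, 1 / √((j:ℝ)+1) ≤ 2 * √(J:ℝ) := by
  induction J with
  | zero => simp
  | succ J ih =>
    rw [Finset.sum_range_succ]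
    have h1 : 0 < √((J:ℝ)+1) := by positivity
    have h0 : 0 ≤ √(J:ℝ) := by positivity
    have h2 : √((J:ℝ)+1)^2 = J+1 := Real.sq_sqrt (by positivity)
    have h3 : √(J:ℝ)^2 = J := Real.sq_sqrt (by positivity)
    have h4 : 1/√((J:ℝ)+1) ≤ 2*√((J:ℝ)+1) - 2*√(J:ℝ) := by
      rw [div_le_iff₀ h1]
      nlinarith [sq_nonneg (√((J:ℝ)+1) - √(J:ℝ))]
    push_cast
    linarith

lemma fib_sum {P : Type*} [DecidableEq P] (T : Finset P) (u : P → ℕ) (A Y : ℝ) (hA : 0 ≤ A)
    (hY : 0 ≤ Y)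
    (hu : ∀ p ∈ T, 1 ≤ u p ∧ (u p : ℝ) ≤ Y)
    (hf : ∀ j : ℕ, ((T.filter (fun p => u p = j)).card : ℝ) ≤ A) :
    ∑ p ∈ T, 1 / √(u p : ℝ) ≤ 2 * A * √Y := by
  have hmap : ∀ p ∈ T, u p - 1 ∈ Finset.range ⌊Y⌋₊ := by
    intro p hp
    obtain ⟨h1, h2⟩ := hu p hp
    have : u p ≤ ⌊Y⌋₊ := Nat.le_floor h2
    rw [Finset.mem_range]; omega
  rw [← Finset.sum_fiberwise_of_maps_to hmap]
  calc ∑ j ∈ Finset.range ⌊Y⌋₊, ∑ p ∈ T.filter (fun p => u p - 1 = j), 1/√(u p : ℝ)
      ≤ ∑ j ∈ Finset.range ⌊Y⌋₊, A * (1/√((j:ℝ)+1)) := by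
        apply Finset.sum_le_sum
        intro j hj
        calc ∑ p ∈ T.filter (fun p => u p - 1 = j), 1/√(u p : ℝ)
            = ∑ p ∈ T.filter (fun p => u p - 1 = j), 1/√((j:ℝ)+1) := by
              apply Finset.sum_congr rfl
              intro p hp
              rw [Finset.mem_filter] at hp
              have := (hu p hp.1).1
              have h2 : u p = j + 1 := by omega
              rw [h2]; push_cast; rfl
          _ = (T.filter (fun p => u p - 1 = j)).card * (1/√((j:ℝ)+1)) := by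
              rw [Finset.sum_const, nsmul_eq_mul]
          _ ≤ A * (1/√((j:ℝ)+1)) := by
              apply mul_le_mul_of_nonneg_right _ (by positivity)
              refine le_trans ?_ (hf (j+1))
              exact_mod_cast Finset.card_le_card (by
                intro p hp
                rw [Finset.mem_filter] at hp ⊢
                have := (hu p hp.1).1
                exact ⟨hp.1, by omega⟩)
    _ = A * ∑ j ∈ Finset.range ⌊Y⌋₊, (1/√((j:ℝ)+1)) := by rw [Finset.mul_sum]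
    _ ≤ A * (2 * √(⌊Y⌋₊:ℝ)) := mul_le_mul_of_nonneg_left (sum_inv_sqrt _) hA
    _ ≤ 2 * A * √Y := by
        have : √(⌊Y⌋₊:ℝ) ≤ √Y := Real.sqrt_le_sqrt (Nat.floor_le hY)
        nlinarith

lemma dif_cast (p : ℕ × ℕ) : (dif p : ℝ) = |(p.1:ℝ) - p.2| := by
  unfold dif
  rcases le_total p.1 p.2 with h | h
  · have h1 : p.1 - p.2 = 0 := by omega
    have h' : (p.1:ℝ) ≤ p.2 := by exact_mod_cast h
    rw [h1, zero_add, Nat.cast_sub h, abs_of_nonpos (by linarith)]; ring
  · have h1 : p.2 - p.1 = 0 := by omega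
    have h' : (p.2:ℝ) ≤ p.1 := by exact_mod_cast h
    rw [h1, add_zero, Nat.cast_sub h, abs_of_nonneg (by linarith)]

/-- `Q` in terms of the difference -/
lemma Q_eq (p : ℕ × ℕ) (k : ℕ) :
    Q p k = (((p.1:ℝ)+p.2-k)/2+1) * (((k:ℝ) + dif p)/2+1) * (((k:ℝ)-dif p)/2+1) := by
  rw [dif_cast]
  unfold Q
  rcases le_total (p.1:ℝ) p.2 with h | h
  · rw [abs_of_nonpos (by linarith)]; ring
  · rw [abs_of_nonneg (by linarith)]; ring

lemma term_I (x : ℝ) (hx : 1 ≤ x) (N k : ℕ) (hN : (N:ℝ) = x^24) (p : ℕ × ℕ)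
    (h1 : N ≤ p.1) (h2 : N ≤ p.2) (hk : 2 * k < 3 * N) (hk0 : 0 < k) (hd : dif p ≤ k) :
    x^36 / √(Q p k) ≤ 4 * x^24 / √(k:ℝ) * (1 / √((k + 1 - dif p : ℕ) : ℝ)) := by
  have hx0 : 0 < x := by linarith
  have hkR : (0:ℝ) < k := by exact_mod_cast hk0
  have hdR : (dif p : ℝ) ≤ k := by exact_mod_cast hd
  have hd0 : (0:ℝ) ≤ dif p := by positivity
  have hu : ((k + 1 - dif p : ℕ) : ℝ) = k + 1 - dif p := by
    rw [Nat.cast_sub (by omega)]; push_cast; ring
  have hupos : (0:ℝ) < ((k + 1 - dif p : ℕ) : ℝ) := by rw [hu]; linarith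
  set u : ℝ := ((k + 1 - dif p : ℕ) : ℝ) with hudef
  have h1R : (N:ℝ) ≤ p.1 := by exact_mod_cast h1
  have h2R : (N:ℝ) ≤ p.2 := by exact_mod_cast h2
  have hkN : 2 * (k:ℝ) < 3 * N := by exact_mod_cast hk
  have hQ : x^24 * k * u / 16 ≤ Q p k := by
    rw [Q_eq]
    have a1 : x^24/4 ≤ ((p.1:ℝ)+p.2-k)/2+1 := by rw [← hN]; linarith
    have a2 : (k:ℝ)/2 ≤ ((k:ℝ) + dif p)/2+1 := by linarith
    have a3 : u/2 ≤ ((k:ℝ)-dif p)/2+1 := by rw [hu]; linarith
    calc x^24 * k * u / 16 = (x^24/4) * (k/2) * (u/2) := by ring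
      _ ≤ _ := by
        apply mul_le_mul (mul_le_mul a1 a2 (by positivity) (le_trans (by positivity) a1)) a3
          (by positivity)
        exact mul_nonneg (le_trans (by positivity) a1) (le_trans (by positivity) a2)
  have hs : x^12 * √(k:ℝ) * √u / 4 ≤ √(Q p k) := by
    apply Real.le_sqrt_of_sq_le
    calc (x^12 * √(k:ℝ) * √u / 4)^2 = x^24 * (√(k:ℝ)^2) * (√u^2) / 16 := by ring
      _ = x^24 * k * u / 16 := by rw [Real.sq_sqrt hkR.le, Real.sq_sqrt hupos.le]
      _ ≤ Q p k := hQ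
  have hsk : 0 < √(k:ℝ) := Real.sqrt_pos.mpr hkR
  have hsu : 0 < √u := Real.sqrt_pos.mpr hupos
  calc x^36 / √(Q p k) ≤ x^36 / (x^12 * √(k:ℝ) * √u / 4) :=
        div_le_div_of_nonneg_left (by positivity) (by positivity) hs
    _ = 4 * x^24 / √(k:ℝ) * (1 / √u) := by
        field_simp

lemma term_II (x : ℝ) (hx : 1 ≤ x) (N k : ℕ) (hN : (N:ℝ) = x^24) (p : ℕ × ℕ)
    (hk : 3 * N ≤ 2 * k) (hd : dif p ≤ N) (hkS : k ≤ p.1 + p.2) :
    x^36 / √(Q p k) ≤ 3 * x^12 * (1 / √((p.1 + p.2 + 1 - k : ℕ) : ℝ)) := by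
  have hx0 : 0 < x := by linarith
  have hdR : (dif p : ℝ) ≤ N := by exact_mod_cast hd
  have hd0 : (0:ℝ) ≤ dif p := by positivity
  have hu : ((p.1 + p.2 + 1 - k : ℕ) : ℝ) = p.1 + p.2 + 1 - k := by
    rw [Nat.cast_sub (by omega)]; push_cast; ring
  have hkSR : (k:ℝ) ≤ p.1 + p.2 := by exact_mod_cast hkS
  have hupos : (0:ℝ) < ((p.1 + p.2 + 1 - k : ℕ) : ℝ) := by rw [hu]; linarith
  set u : ℝ := ((p.1 + p.2 + 1 - k : ℕ) : ℝ) with hudef
  have hkN : 3 * (N:ℝ) ≤ 2 * k := by exact_mod_cast hk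
  have hN0 : (0:ℝ) < N := by rw [hN]; positivity
  have hQ : x^48 * u / 8 ≤ Q p k := by
    rw [Q_eq]
    have a1 : u/2 ≤ ((p.1:ℝ)+p.2-k)/2+1 := by rw [hu]; linarith
    have a2 : x^48/4 ≤ (((k:ℝ) + dif p)/2+1) * (((k:ℝ)-dif p)/2+1) := by
      have : x^48 = (N:ℝ)^2 := by rw [hN]; ring
      rw [this]
      nlinarith
    calc x^48 * u / 8 = (u/2) * (x^48/4) := by ring
      _ ≤ (((p.1:ℝ)+p.2-k)/2+1) * ((((k:ℝ) + dif p)/2+1) * (((k:ℝ)-dif p)/2+1)) := 
        mul_le_mul a1 a2 (by positivity) (le_trans (by positivity) a1)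
      _ = _ := by ring
  have hs : x^24 * √u / 3 ≤ √(Q p k) := by
    apply Real.le_sqrt_of_sq_le
    calc (x^24 * √u / 3)^2 = x^48 * (√u^2) / 9 := by ring
      _ = x^48 * u / 9 := by rw [Real.sq_sqrt hupos.le]
      _ ≤ x^48 * u / 8 := by
        have : 0 ≤ x^48 * u := by positivity
        linarith
      _ ≤ Q p k := hQ
  have hsu : 0 < √u := Real.sqrt_pos.mpr hupos
  calc x^36 / √(Q p k) ≤ x^36 / (x^24 * √u / 3) :=
        div_le_div_of_nonneg_left (by positivity) (by positivity) hs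
    _ = 3 * x^12 * (1 / √u) := by
        field_simp

/-- Case `2k < 3N`. -/
lemma core_I (A x : ℝ) (hA : 1 ≤ A) (hx : 1 ≤ x) (N : ℕ) (hN : (N:ℝ) = x^24)
    (B : Finset (ℕ × ℕ)) (hB : ∀ p ∈ B, N ≤ p.1 ∧ p.1 < 2 * N ∧ N ≤ p.2 ∧ p.2 < 2 * N)
    (hC1 : ∀ d : ℕ, ((B.filter (fun p => dif p = d)).card : ℝ) ≤ A)
    (hC3 : ∀ k : ℕ, ((B.filter (fun p => dif p ≤ k)).card : ℝ) ≤ A * (k / x^2 + x^6))
    (k : ℕ) (hk : x^8 ≤ k) (hkN : 2 * k < 3 * N) :
    ∑ p ∈ B.filter (fun p => dif p ≤ k ∧ k ≤ p.1 + p.2), x^36 / √(Q p k) ≤ 16 * A * x^23 := by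
  have hx0 : 0 < x := by linarith
  have hkR : (0:ℝ) < k := lt_of_lt_of_le (by positivity) hk
  have hk0 : 0 < k := by exact_mod_cast hkR
  have hsk : 0 < √(k:ℝ) := Real.sqrt_pos.mpr hkR
  have hsk2 : √(k:ℝ)^2 = k := Real.sq_sqrt hkR.le
  set T := B.filter (fun p => dif p ≤ k ∧ k ≤ p.1 + p.2) with hT
  set u : ℕ × ℕ → ℕ := fun p => k + 1 - dif p with hu
  have hterm : ∀ p ∈ T, x^36 / √(Q p k) ≤ 4 * x^24 / √(k:ℝ) * (1 / √(u p : ℝ)) := by
    intro p hp
    rw [hT, Finset.mem_filter] at hp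
    obtain ⟨h1, h2, h3, h4⟩ := hB p hp.1
    exact term_I x hx N k hN p h1 h3 hkN hk0 hp.2.1
  rw [← Finset.sum_filter_add_sum_filter_not T (fun p => (k:ℝ) < u p * x^2)]
  have hIa : ∑ p ∈ T.filter (fun p => (k:ℝ) < u p * x^2), x^36 / √(Q p k) ≤ 8 * A * x^23 := by
    calc ∑ p ∈ T.filter (fun p => (k:ℝ) < u p * x^2), x^36 / √(Q p k)
        ≤ ∑ p ∈ T.filter (fun p => (k:ℝ) < u p * x^2), 4 * x^25 / k := by
          apply Finset.sum_le_sum
          intro p hp
          rw [Finset.mem_filter] at hp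
          refine le_trans (hterm p hp.1) ?_
          have h5 : √(k:ℝ) / x ≤ √(u p : ℝ) := by
            apply Real.le_sqrt_of_sq_le
            rw [div_pow, hsk2, div_le_iff₀ (by positivity)]
            exact hp.2.le
          have h6 : 1 / √(u p : ℝ) ≤ 1 / (√(k:ℝ) / x) :=
            one_div_le_one_div_of_le (by positivity) h5
          calc 4 * x^24 / √(k:ℝ) * (1 / √(u p : ℝ)) ≤ 4 * x^24 / √(k:ℝ) * (1 / (√(k:ℝ) / x)) :=
                mul_le_mul_of_nonneg_left h6 (by positivity)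
            _ = 4 * x^25 / (√(k:ℝ)^2) := by field_simp
            _ = 4 * x^25 / k := by rw [hsk2]
      _ = (T.filter (fun p => (k:ℝ) < u p * x^2)).card * (4 * x^25 / k) := by
          rw [Finset.sum_const, nsmul_eq_mul]
      _ ≤ (A * (k / x^2 + x^6)) * (4 * x^25 / k) := by
          apply mul_le_mul_of_nonneg_right _ (by positivity)
          refine le_trans ?_ (hC3 k)
          exact_mod_cast Finset.card_le_card (by
            intro p hp
            rw [Finset.mem_filter, hT, Finset.mem_filter] at hp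
            rw [Finset.mem_filter]
            exact ⟨hp.1.1, hp.1.2.1⟩)
      _ = 4 * A * x^23 + 4 * A * (x^31 / k) := by
          field_simp
      _ ≤ 4 * A * x^23 + 4 * A * x^23 := by
          have : x^31 / k ≤ x^23 := by
            rw [div_le_iff₀ hkR]
            calc x^31 = x^23 * x^8 := by ring
              _ ≤ x^23 * k := mul_le_mul_of_nonneg_left hk (by positivity)
          have h7 : 4 * A * (x^31/k) ≤ 4 * A * x^23 :=
            mul_le_mul_of_nonneg_left this (by linarith)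
          linarith
      _ = 8 * A * x^23 := by ring
  have hIb : ∑ p ∈ T.filter (fun p => ¬ (k:ℝ) < u p * x^2), x^36 / √(Q p k)
      ≤ 8 * A * x^23 := by
    calc ∑ p ∈ T.filter (fun p => ¬ (k:ℝ) < u p * x^2), x^36 / √(Q p k)
        ≤ ∑ p ∈ T.filter (fun p => ¬ (k:ℝ) < u p * x^2),
            4 * x^24 / √(k:ℝ) * (1 / √(u p : ℝ)) := by
          apply Finset.sum_le_sum
          intro p hp
          rw [Finset.mem_filter] at hp
          exact hterm p hp.1
      _ = 4 * x^24 / √(k:ℝ) *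
            ∑ p ∈ T.filter (fun p => ¬ (k:ℝ) < u p * x^2), 1 / √(u p : ℝ) := by
          rw [Finset.mul_sum]
      _ ≤ 4 * x^24 / √(k:ℝ) * (2 * A * √((k:ℝ)/x^2)) := by
          apply mul_le_mul_of_nonneg_left _ (by positivity)
          apply fib_sum _ u A _ (by linarith) (by positivity)
          · intro p hp
            rw [Finset.mem_filter, hT, Finset.mem_filter] at hp
            refine ⟨?_, ?_⟩
            · simp only [hu]
              have := hp.1.2.1
              omega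
            · rw [le_div_iff₀ (by positivity)]
              exact not_lt.mp hp.2
          · intro j
            refine le_trans ?_ (hC1 (k + 1 - j))
            exact_mod_cast Finset.card_le_card (by
              intro p hp
              rw [Finset.mem_filter, Finset.mem_filter, hT, Finset.mem_filter] at hp
              rw [Finset.mem_filter]
              have h1 := hp.1.1.2.1
              have h2 : k + 1 - dif p = j := hp.2
              exact ⟨hp.1.1.1, by omega⟩)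
      _ = 4 * x^24 / √(k:ℝ) * (2 * A * (√(k:ℝ)/x)) := by
          rw [Real.sqrt_div hkR.le, Real.sqrt_sq hx0.le]
      _ = 8 * A * x^23 := by
          field_simp
          ring
  calc _ ≤ 8 * A * x^23 + 8 * A * x^23 := add_le_add hIa hIb
    _ = 16 * A * x^23 := by ring

/-- Case `3N ≤ 2k`. -/
lemma core_II (A x : ℝ) (hA : 1 ≤ A) (hx : 1 ≤ x) (N : ℕ) (hN : (N:ℝ) = x^24)
    (B : Finset (ℕ × ℕ)) (hB : ∀ p ∈ B, N ≤ p.1 ∧ p.1 < 2 * N ∧ N ≤ p.2 ∧ p.2 < 2 * N)
    (hC2a : ∀ s : ℕ, ((B.filter (fun p => p.1 + p.2 = s ∧ x^12 ≤ (dif p : ℝ))).card : ℝ) ≤ A)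
    (hC2b : ((B.filter (fun p => (dif p : ℝ) ≤ x^12)).card : ℝ) ≤ A * x^6)
    (hC3 : ∀ k : ℕ, ((B.filter (fun p => dif p ≤ k)).card : ℝ) ≤ A * (k / x^2 + x^6))
    (k : ℕ) (hkN : 3 * N ≤ 2 * k) :
    ∑ p ∈ B.filter (fun p => dif p ≤ k ∧ k ≤ p.1 + p.2), x^36 / √(Q p k) ≤ 16 * A * x^23 := by
  have hx0 : 0 < x := by linarith
  have hdN : ∀ p ∈ B, dif p ≤ N := by
    intro p hp
    obtain ⟨h1, h2, h3, h4⟩ := hB p hp
    unfold dif; omega
  set T := B.filter (fun p => dif p ≤ k ∧ k ≤ p.1 + p.2) with hT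
  set v : ℕ × ℕ → ℕ := fun p => p.1 + p.2 + 1 - k with hv
  have hterm : ∀ p ∈ T, x^36 / √(Q p k) ≤ 3 * x^12 * (1 / √(v p : ℝ)) := by
    intro p hp
    rw [hT, Finset.mem_filter] at hp
    exact term_II x hx N k hN p hkN (hdN p hp.1) hp.2.2
  rw [← Finset.sum_filter_add_sum_filter_not T (fun p => x^22 < (v p : ℝ))]
  have hIIa : ∑ p ∈ T.filter (fun p => x^22 < (v p : ℝ)), x^36 / √(Q p k) ≤ 6 * A * x^23 := by
    calc ∑ p ∈ T.filter (fun p => x^22 < (v p : ℝ)), x^36 / √(Q p k)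
        ≤ ∑ p ∈ T.filter (fun p => x^22 < (v p : ℝ)), 3 * x := by
          apply Finset.sum_le_sum
          intro p hp
          rw [Finset.mem_filter] at hp
          refine le_trans (hterm p hp.1) ?_
          have h5 : x^11 ≤ √(v p : ℝ) := by
            apply Real.le_sqrt_of_sq_le
            calc (x^11)^2 = x^22 := by ring
              _ ≤ _ := hp.2.le
          have h6 : 1 / √(v p : ℝ) ≤ 1 / x^11 := one_div_le_one_div_of_le (by positivity) h5
          calc 3 * x^12 * (1 / √(v p : ℝ)) ≤ 3 * x^12 * (1 / x^11) :=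
                mul_le_mul_of_nonneg_left h6 (by positivity)
            _ = 3 * x := by field_simp
      _ = (T.filter (fun p => x^22 < (v p : ℝ))).card * (3 * x) := by
          rw [Finset.sum_const, nsmul_eq_mul]
      _ ≤ (A * (N / x^2 + x^6)) * (3 * x) := by
          apply mul_le_mul_of_nonneg_right _ (by positivity)
          refine le_trans ?_ (hC3 N)
          exact_mod_cast Finset.card_le_card (by
            intro p hp
            rw [Finset.mem_filter, hT, Finset.mem_filter] at hp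
            rw [Finset.mem_filter]
            exact ⟨hp.1.1, hdN p hp.1.1⟩)
      _ = 3 * A * x^23 + 3 * A * x^7 := by
          rw [hN]
          field_simp
      _ ≤ 3 * A * x^23 + 3 * A * x^23 := by
          have : x^7 ≤ x^23 := pow_le_pow_right₀ hx (by norm_num)
          have h7 : 3 * A * x^7 ≤ 3 * A * x^23 :=
            mul_le_mul_of_nonneg_left this (by linarith)
          linarith
      _ = 6 * A * x^23 := by ring
  have hIIb : ∑ p ∈ T.filter (fun p => ¬ x^22 < (v p : ℝ)), x^36 / √(Q p k)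
      ≤ 9 * A * x^23 := by
    rw [← Finset.sum_filter_add_sum_filter_not (T.filter (fun p => ¬ x^22 < (v p : ℝ)))
      (fun p => x^12 ≤ (dif p : ℝ))]
    have h1 : ∑ p ∈ (T.filter (fun p => ¬ x^22 < (v p : ℝ))).filter
        (fun p => x^12 ≤ (dif p : ℝ)), x^36 / √(Q p k) ≤ 6 * A * x^23 := by
      calc _ ≤ ∑ p ∈ (T.filter (fun p => ¬ x^22 < (v p : ℝ))).filter
              (fun p => x^12 ≤ (dif p : ℝ)), 3 * x^12 * (1 / √(v p : ℝ)) := by
            apply Finset.sum_le_sum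
            intro p hp
            rw [Finset.mem_filter, Finset.mem_filter] at hp
            exact hterm p hp.1.1
        _ = 3 * x^12 * ∑ p ∈ (T.filter (fun p => ¬ x^22 < (v p : ℝ))).filter
              (fun p => x^12 ≤ (dif p : ℝ)), (1 / √(v p : ℝ)) := by
            rw [Finset.mul_sum]
        _ ≤ 3 * x^12 * (2 * A * √(x^22)) := by
            apply mul_le_mul_of_nonneg_left _ (by positivity)
            apply fib_sum _ v A _ (by linarith) (by positivity)
            · intro p hp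
              rw [Finset.mem_filter, Finset.mem_filter, hT, Finset.mem_filter] at hp
              refine ⟨?_, not_lt.mp hp.1.2⟩
              simp only [hv]
              have := hp.1.1.2.2
              omega
            · intro j
              refine le_trans ?_ (hC2a (j + k - 1))
              exact_mod_cast Finset.card_le_card (by
                intro p hp
                rw [Finset.mem_filter, Finset.mem_filter, Finset.mem_filter, hT,
                  Finset.mem_filter] at hp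
                rw [Finset.mem_filter]
                have h1 := hp.1.1.1.2.2
                have h2 : p.1 + p.2 + 1 - k = j := hp.2
                exact ⟨hp.1.1.1.1, by omega, hp.1.2⟩)
        _ = 3 * x^12 * (2 * A * x^11) := by
            have : √(x^22) = x^11 := by
              rw [show x^22 = (x^11)^2 by ring, Real.sqrt_sq (by positivity)]
            rw [this]
        _ = 6 * A * x^23 := by ring
    have h2 : ∑ p ∈ (T.filter (fun p => ¬ x^22 < (v p : ℝ))).filter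
        (fun p => ¬ x^12 ≤ (dif p : ℝ)), x^36 / √(Q p k) ≤ 3 * A * x^23 := by
      calc _ ≤ ∑ p ∈ (T.filter (fun p => ¬ x^22 < (v p : ℝ))).filter
              (fun p => ¬ x^12 ≤ (dif p : ℝ)), 3 * x^12 := by
            apply Finset.sum_le_sum
            intro p hp
            rw [Finset.mem_filter, Finset.mem_filter] at hp
            refine le_trans (hterm p hp.1.1) ?_
            have h3 : (1:ℝ) ≤ √(v p : ℝ) := by
              rw [Real.one_le_sqrt]
              have h4 := hp.1.1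
              rw [hT, Finset.mem_filter] at h4
              have : 1 ≤ v p := by
                simp only [hv]
                have := h4.2.2
                omega
              exact_mod_cast this
            have h6 : 1 / √(v p : ℝ) ≤ 1 := by
              rw [div_le_one (by linarith)]; exact h3
            calc 3 * x^12 * (1 / √(v p : ℝ)) ≤ 3 * x^12 * 1 :=
                  mul_le_mul_of_nonneg_left h6 (by positivity)
              _ = 3 * x^12 := by ring
        _ = ((T.filter (fun p => ¬ x^22 < (v p : ℝ))).filter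
              (fun p => ¬ x^12 ≤ (dif p : ℝ))).card * (3 * x^12) := by
            rw [Finset.sum_const, nsmul_eq_mul]
        _ ≤ (A * x^6) * (3 * x^12) := by
            apply mul_le_mul_of_nonneg_right _ (by positivity)
            refine le_trans ?_ hC2b
            exact_mod_cast Finset.card_le_card (by
              intro p hp
              rw [Finset.mem_filter, Finset.mem_filter, hT, Finset.mem_filter] at hp
              rw [Finset.mem_filter]
              exact ⟨hp.1.1.1, (not_le.mp hp.2).le⟩)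
        _ = 3 * A * x^18 := by ring
        _ ≤ 3 * A * x^23 := by
            have : x^18 ≤ x^23 := pow_le_pow_right₀ hx (by norm_num)
            exact mul_le_mul_of_nonneg_left this (by linarith)
    calc _ ≤ 6 * A * x^23 + 3 * A * x^23 := add_le_add h1 h2
      _ = 9 * A * x^23 := by ring
  calc _ ≤ 6 * A * x^23 + 9 * A * x^23 := add_le_add hIIa hIIb
    _ ≤ 16 * A * x^23 := by
      have : 0 ≤ A * x^23 := by positivity
      linarith

/-- **Module (D)** of the droplet Strichartz project: for `k ≥ N^(1/3)` the sum of the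
coefficients `N^(3/2) / √((r+1)(n-r+1)(m-r+1))`, `k = n+m-2r`, over the pairs `(n,m)` of a band
with `|n-m| ≤ k ≤ n+m` is at most `16 A N^(23/24)`. -/
theorem moduleD (A : ℝ) (hA : 1 ≤ A) (N : ℕ) (hN : 1 ≤ N)
    (B : Finset (ℕ × ℕ)) (hB : ∀ p ∈ B, N ≤ p.1 ∧ p.1 < 2 * N ∧ N ≤ p.2 ∧ p.2 < 2 * N)
    (hC1 : ∀ d : ℕ, ((B.filter (fun p => dif p = d)).card : ℝ) ≤ A)
    (hC2a : ∀ s : ℕ, ((B.filter (fun p => p.1 + p.2 = s ∧
      (N:ℝ)^(1/2:ℝ) ≤ (dif p : ℝ))).card : ℝ) ≤ A)
    (hC2b : ((B.filter (fun p => (dif p : ℝ) ≤ (N:ℝ)^(1/2:ℝ))).card : ℝ) ≤ A * (N:ℝ)^(1/4:ℝ))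
    (hC3 : ∀ k : ℕ, ((B.filter (fun p => dif p ≤ k)).card : ℝ) ≤
      A * (k * (N:ℝ)^(-(1/12):ℝ) + (N:ℝ)^(1/4:ℝ)))
    (k : ℕ) (hk : (N:ℝ)^(1/3:ℝ) ≤ k) :
    ∑ p ∈ B.filter (fun p => dif p ≤ k ∧ k ≤ p.1 + p.2), (N:ℝ)^(3/2:ℝ) / √(Q p k)
      ≤ 16 * A * (N:ℝ)^(23/24:ℝ) := by
  have hN0 : (0:ℝ) ≤ N := by positivity
  have hN1 : (1:ℝ) ≤ N := by exact_mod_cast hN
  set x : ℝ := (N:ℝ)^(1/24:ℝ) with hx
  have hx1 : 1 ≤ x := Real.one_le_rpow hN1 (by norm_num)
  have hx0 : 0 < x := by linarith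
  have hpow : ∀ j : ℕ, (N:ℝ)^((j:ℝ)/24) = x^j := by
    intro j
    rw [hx, ← Real.rpow_natCast, ← Real.rpow_mul hN0]
    congr 1; ring
  have e24 : (N:ℝ) = x^24 := by
    have := hpow 24
    rw [← this]; norm_num
  have e12 : (N:ℝ)^(1/2:ℝ) = x^12 := by rw [← hpow 12]; norm_num
  have e6 : (N:ℝ)^(1/4:ℝ) = x^6 := by rw [← hpow 6]; norm_num
  have e8 : (N:ℝ)^(1/3:ℝ) = x^8 := by rw [← hpow 8]; norm_num
  have e36 : (N:ℝ)^(3/2:ℝ) = x^36 := by rw [← hpow 36]; norm_num
  have e23 : (N:ℝ)^(23/24:ℝ) = x^23 := by rw [← hpow 23]; norm_num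
  have e2 : (N:ℝ)^(-(1/12):ℝ) = (x^2)⁻¹ := by
    rw [Real.rpow_neg hN0, ← hpow 2]; norm_num
  rw [e12] at hC2a hC2b
  rw [e6] at hC2b
  rw [e8] at hk
  rw [e36, e23]
  have hC3' : ∀ k : ℕ, ((B.filter (fun p => dif p ≤ k)).card : ℝ) ≤ A * (k / x^2 + x^6) := by
    intro k
    have := hC3 k
    rw [e2, e6] at this
    rw [div_eq_mul_inv]; exact this
  rcases lt_or_ge (2 * k) (3 * N) with h | h
  · exact core_I A x hA hx1 N e24 B hB hC1 hC3' k hk h
  · exact core_II A x hA hx1 N e24 B hB hC2a hC2b hC3' k h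

end Pool.Agent.Helper591.DR
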